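import Pool.Agent.Q317.ST.TC
import Pool.Agent.Q317.ST.Pad

/-!
# Stark's conjecture up to roots of unity from cyclic extensions of totally complex fields

`Ω` is an algebraic closure of `ℚ`, and number fields are the finite extensions of `ℚ` in `Ω`.
-/

set_option autoImplicit false

namespace Pool.Agent.Results.MP_46b841_nt.CyclicTotallyComplex

open IntermediateField Pool.Agent.Q317.ST

attribute [-instance] DivisionRing.toRatAlgebra

theorem result (Ω : Type) [Field Ω] [Algebra ℚ Ω] [IsAlgClosure ℚ Ω] (N : StarkNumbers Ω)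
    (hT : ∀ (κ : N.Choice ⊥) (σ : ℂ ≃+* ℂ),
      σ (N.A κ (fun _ => 1)) = N.A κ (fun _ => 1)) :
    (∀ (m : ℕ) (E : Fin m → Type) [∀ j, Field (E j)], (∀ j, CharZero (E j)) →
      (∀ j, StarkNumbers.NonSq (E j)) →
      (∀ F : IntermediateField ℚ Ω, FiniteDimensional ℚ F → IsEmpty (F →+* ℝ) →
        (∀ j, IsEmpty (F →+* E j)) → N.StarkForCyclic F) →
      ∀ K : IntermediateField ℚ Ω, N.StarkTorsion K) ∧
    (∀ n : ℕ, (∀ F : IntermediateField ℚ Ω, FiniteDimensional ℚ F → IsEmpty (F →+* ℝ) →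
        (∀ (p : ℕ) [Fact p.Prime], p ≤ n → IsEmpty (F →+* ℚ_[p])) → N.StarkForCyclic F) →
      ∀ K : IntermediateField ℚ Ω, N.StarkTorsion K) := by
  have hT' : ∀ (κ : N.Choice ⊥) (σ : ℂ ≃+* ℂ), StarkNumbers.Good κ σ (fun _ => 1) := by
    intro κ σ
    have h1 : tw σ (fun _ : GG (⊥ : IntermediateField ℚ Ω) => (1 : ℂ)) = fun _ => 1 := by
      funext g
      exact map_one σ
    unfold StarkNumbers.Good
    rw [h1]
    exact hT κ σ
  constructor
  · intro m E _ hE hnE h K
    exact StarkNumbers.StarkTorsion.ascent bot_le (StarkNumbers.torsion_bot E hE hnE hT' h)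
  · intro n h K
    let J := {p : Fin (n + 1) // (p : ℕ).Prime}
    have i0 : ∀ j : J, Fact ((j.1 : ℕ).Prime) := fun j => ⟨j.2⟩
    refine StarkNumbers.StarkTorsion.ascent bot_le (StarkNumbers.torsion_bot
      (fun j : J => ℚ_[(j.1 : ℕ)]) (fun j => inferInstance) (fun j => exists_nonsq _) hT' ?_)
    intro F hF hR hj
    refine h F hF hR ?_
    intro p hp hpn
    exact hj ⟨⟨p, by omega⟩, hp.out⟩

end Pool.Agent.Results.MP_46b841_nt.CyclicTotallyComplex
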