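import Pool.Agent.Q45.ML.OF
import Pool.Agent.Q45.ML.Real

/-!
# Stark's conjecture for a Galois orbit of characters, read off from smoothed character sums

Let `L/K` be a Galois extension of number fields with group `G`, `S` a finite set of places of `K` containing the
infinite ones (`Sf` is its finite part), `χ` a character of `G` of degree `n` with values in the number field `E`, and
for every embedding `τ : E → ℂ` let `χ^τ = τ ∘ χ`. For a finite place `v ∉ S` let `P v ∈ E[X]` be the polynomial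
`det(1 - Frob_v X | V^{I_v})`; its image under `τ` is `∏_j (1 - α τ v j X)` where the `α τ v j` are roots of unity or
`0`. `Λ_τ(s) = L_S(s, χ^τ)` has the Euler product `∏_{v ∉ S} P v^τ(N v^{-s})^{-1}`, and is meromorphic. For `γ > π/2`
put

`S_τ(T) = ∑_{v ∉ S} ∑_{k ≥ 1} (∑_j (α τ v j)^k / k) e^{iγ k log N(v)/T} / Γ(1 + k log N(v)/T)`;

at the unramified places `∑_j (α τ v j)^k = χ^τ(Frob_v^k)`.
-/

set_option autoImplicit false

namespace Pool.Agent.Results.MP_46b841_nt.GaloisOrbitLattice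

open Filter Topology Asymptotics Polynomial Pool.Agent.Q45.ML NumberField IsDedekindDomain

/-- the norm of a finite place -/
noncomputable def N {K : Type} [Field K] [NumberField K] (v : HeightOneSpectrum (𝓞 K)) : ℝ :=
  Ideal.absNorm v.asIdeal

/-- the term at `(v, k)`, `k = z.2 + 1`: `(∑_j α v j^k / k) e^{iγ k log N(v)/T} / Γ(1 + k log N(v)/T)` -/
noncomputable def term {K : Type} [Field K] [NumberField K] {n : ℕ} (Sf : Finset (HeightOneSpectrum (𝓞 K)))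
    (α : HeightOneSpectrum (𝓞 K) → Fin n → ℂ) (γ T : ℝ)
    (z : {v : HeightOneSpectrum (𝓞 K) // v ∉ Sf} × ℕ) : ℂ :=
  (∑ j, α z.1 j ^ (z.2 + 1)) / (z.2 + 1) *
    (Complex.exp ((γ * ((z.2 + 1) * Real.log (N z.1.1) / T) : ℝ) * Complex.I) /
      (Real.Gamma (1 + (z.2 + 1) * Real.log (N z.1.1) / T) : ℂ))

/-- the smoothed sum -/
noncomputable def S {K : Type} [Field K] [NumberField K] {n : ℕ} (Sf : Finset (HeightOneSpectrum (𝓞 K)))
    (α : HeightOneSpectrum (𝓞 K) → Fin n → ℂ) (γ T : ℝ) : ℂ := ∑' z, term Sf α γ T z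

/-- the constant `Λ(γ) = ∫_0^∞ (e^{-t} - e^{iγt}/Γ(1+t)) dt/t` -/
noncomputable def Lam (γ : ℝ) : ℂ := Pool.Agent.W187.UR.Lam γ

theorem term_eq {K : Type} [Field K] [NumberField K] {n : ℕ} (Sf : Finset (HeightOneSpectrum (𝓞 K)))
    (α : HeightOneSpectrum (𝓞 K) → Fin n → ℂ) (γ T : ℝ)
    (z : {v : HeightOneSpectrum (𝓞 K) // v ∉ Sf} × ℕ) :
    term Sf α γ T z = sterm (fun v : {v : HeightOneSpectrum (𝓞 K) // v ∉ Sf} => nrm v.1)
      (fun v => α v.1) 0 γ T z := by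
  unfold term sterm N nrm
  simp

theorem result (K E : Type) [Field K] [NumberField K] [Field E] [NumberField E] {n : ℕ}
    (Sf : Finset (HeightOneSpectrum (𝓞 K))) (P : HeightOneSpectrum (𝓞 K) → E[X])
    (α : (E →+* ℂ) → HeightOneSpectrum (𝓞 K) → Fin n → ℂ)
    (hP : ∀ τ, ∀ v ∉ Sf, (P v).map τ = ∏ j, (1 - C (α τ v j) * X))
    (hα : ∀ τ, ∀ v ∉ Sf, ∀ j, ‖α τ v j‖ ≤ 1)
    (L : (E →+* ℂ) → ℂ → ℂ) (hmer : ∀ τ, ∀ σ : ℝ, 0 ≤ σ → σ ≤ 1 → MeromorphicAt (L τ) (σ : ℂ))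
    (hL : ∀ τ, ∀ s : ℂ, 1 < s.re →
      HasProd (fun v : {v : HeightOneSpectrum (𝓞 K) // v ∉ Sf} =>
        (eval₂ τ ((N v.1 : ℂ) ^ (-s)) (P v.1))⁻¹) (L τ s))
    (R : (E →+* ℂ) → ℂ) (hR : ∀ τ, R τ ≠ 0) {γ : ℝ} (hγ : Real.pi / 2 < γ) :
    (∀ τ, ∀ T : ℝ, 0 < T → Summable fun z => ‖term Sf (α τ) γ T z‖) ∧
    ∃ r : (E →+* ℂ) → ℤ, (∀ τ, meromorphicOrderAt (L τ) 0 = r τ) ∧
      (∀ τ, (fun T : ℝ => Complex.exp (S Sf (α τ) γ T) * (T : ℂ) ^ r τ * Complex.exp (-(r τ * Lam γ)) -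
        meromorphicTrailingCoeffAt (L τ) 0) =O[atTop] (fun T : ℝ => 1 / T)) ∧
      ((∃ e : E, ∀ τ : E →+* ℂ, R τ / meromorphicTrailingCoeffAt (L τ) 0 = τ e) ↔ ∃ D : ℕ, 0 < D ∧
        ∃ t : ℕ → ℝ, Tendsto t atTop atTop ∧ Tendsto
          (fun i => Metric.infDist (fun τ => (D : ℂ) *
              (Complex.exp (S Sf (α τ) γ (t i)) * (t i : ℂ) ^ r τ * Complex.exp (-(r τ * Lam γ)) / R τ))
            (Set.range fun (a : 𝓞 E) (τ : E →+* ℂ) => τ a)) atTop (𝓝 0)) := by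
  have hE : ∀ τ, Eul n (fun v : {v : HeightOneSpectrum (𝓞 K) // v ∉ Sf} => nrm v.1)
      (fun v => α τ v.1) 0 1 := fun τ => eul_nf Sf (α := α τ) (by simpa using hα τ)
  have hS : ∀ τ T, smooth (fun v : {v : HeightOneSpectrum (𝓞 K) // v ∉ Sf} => nrm v.1)
      (fun v => α τ v.1) 0 γ T = S Sf (α τ) γ T := by
    intro τ T
    unfold smooth S
    simp only [term_eq]
  have hlaw : ∀ τ, ∃ (m : ℤ) (r : ℂ), meromorphicOrderAt (L τ) 0 = m ∧
      Complex.exp r = meromorphicTrailingCoeffAt (L τ) 0 ∧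
      (fun T : ℝ => S Sf (α τ) γ T - (r - m * (Real.log T - Pool.Agent.W187.UR.Lam γ))) =O[atTop]
        (fun T : ℝ => 1 / T) := by
    intro τ
    obtain ⟨m, r, h1, h2, h3⟩ := (hE τ).lawC (F := L τ) (s₀ := 0) (by norm_num)
      (fun x hx hx1 => hmer τ x hx (by linarith))
      (fun s hs => by
        have h4 := hL τ s (by linarith)
        refine h4.congr_fun fun v => ?_
        rw [eval_prod' (hP τ v.1 v.2), Finset.prod_inv_distrib]
        rfl) hγ
    rw [Complex.ofReal_zero] at h1 h2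
    simp only [hS] at h3
    exact ⟨m, r, h1, h2, h3⟩
  choose r ρ h1 h2 h3 using hlaw
  have hrate : ∀ τ, (fun T : ℝ => Complex.exp (S Sf (α τ) γ T) * (T : ℂ) ^ r τ *
      Complex.exp (-(r τ * Lam γ)) - meromorphicTrailingCoeffAt (L τ) 0) =O[atTop]
      (fun T : ℝ => 1 / T) := by
    intro τ
    have h4 := (prod_rate (h3 τ)).const_mul_left (Complex.exp (-(r τ * Lam γ)))
    refine h4.congr_left fun T => ?_
    rw [mul_sub, h2 τ]
    have h5 : Complex.exp (-(r τ * Lam γ)) * Complex.exp (r τ * Pool.Agent.W187.UR.Lam γ) = 1 := by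
      rw [← Complex.exp_add]
      have : -((r τ : ℂ) * Lam γ) + r τ * Pool.Agent.W187.UR.Lam γ = 0 := by
        unfold Lam; ring
      rw [this, Complex.exp_zero]
    linear_combination (-meromorphicTrailingCoeffAt (L τ) 0) * h5
  refine ⟨fun τ T hT => ?_, r, h1, hrate, ?_⟩
  · simp only [term_eq]
    exact (hE τ).sterm_summable 0 γ hT
  · have hne : ∀ τ, meromorphicTrailingCoeffAt (L τ) 0 ≠ 0 := fun τ => by
      rw [← h2 τ]; exact Complex.exp_ne_zero _
    rw [← relation_iff E (f := fun τ T => Complex.exp (S Sf (α τ) γ T) * (T : ℂ) ^ r τ *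
      Complex.exp (-(r τ * Lam γ))) hR fun τ => tendsto_of_rate (hrate τ)]
    constructor
    · rintro ⟨e, he⟩
      refine ⟨e⁻¹, fun τ => ?_⟩
      rw [map_inv₀, ← he τ]
      have := hR τ
      have := hne τ
      field_simp
    · rintro ⟨e, he⟩
      refine ⟨e⁻¹, fun τ => ?_⟩
      have h5 := hne τ
      rw [he τ] at h5 ⊢
      have h6 : τ e ≠ 0 := left_ne_zero_of_mul h5
      have := hR τ
      rw [map_inv₀]
      field_simp

end Pool.Agent.Results.MP_46b841_nt.GaloisOrbitLattice
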