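import Pool.Agent.Q45.ML.Plain

/-!
# Leading terms at `s = 0` of `L_S(s, χ)` for real characters: sign, and a dichotomy for real zeros

Let `χ` be a real-valued character of degree `n` of `Gal(L/K)` (for instance quadratic, orthogonal or symplectic), `S` a
finite set of places of `K` containing the infinite ones, with finite part `Sf`; for `v ∉ Sf` let `α v j` be the
eigenvalues of `Frob_v` on `V^{I_v}` (padded by zeros), so that `∑_j (α v j)^k = χ(Frob_v^k)` at the unramified places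
is real. Put, with no oscillating factor,

`U(T) = ∑_{v ∉ Sf} ∑_{k ≥ 1} (∑_j (α v j)^k) / (k Γ(1 + k log N(v)/T))`.

The leading coefficient `l = L*_S(0, χ)` is real and has the sign `(-1)^N`, where `N` is the number of zeros minus the
number of poles of `L_S(s, χ)` for real `s > 0`. There are no such zeros and poles if and only if `U(T) = O(log T)`, and
then `U(T) = log l - r (log T - κ) + O(1/T)`; otherwise `|U(T)| ≥ exp exp(yT)` for all `y < β`, with `β` the largest real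
zero or pole.
-/

set_option autoImplicit false

namespace Pool.Agent.Results.MP_46b841_nt.RealCharacterDichotomy

open Filter Topology Asymptotics Pool.Agent.Q45.ML NumberField IsDedekindDomain

/-- the norm of a finite place -/
noncomputable def N {K : Type} [Field K] [NumberField K] (v : HeightOneSpectrum (𝓞 K)) : ℝ :=
  Ideal.absNorm v.asIdeal

/-- the term at `(v, k)`, `k = z.2 + 1`: `(∑_j α v j^k) / (k Γ(1 + k log N(v)/T))` -/
noncomputable def term {K : Type} [Field K] [NumberField K] {n : ℕ} (Sf : Finset (HeightOneSpectrum (𝓞 K)))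
    (α : HeightOneSpectrum (𝓞 K) → Fin n → ℂ) (T : ℝ)
    (z : {v : HeightOneSpectrum (𝓞 K) // v ∉ Sf} × ℕ) : ℝ :=
  (∑ j, α z.1 j ^ (z.2 + 1)).re / ((z.2 + 1) * Real.Gamma (1 + (z.2 + 1) * Real.log (N z.1.1) / T))

/-- `U(T)` -/
noncomputable def U {K : Type} [Field K] [NumberField K] {n : ℕ} (Sf : Finset (HeightOneSpectrum (𝓞 K)))
    (α : HeightOneSpectrum (𝓞 K) → Fin n → ℂ) (T : ℝ) : ℝ := ∑' z, term Sf α T z

/-- `κ = ∫_0^∞ (e^{-t} - 1/Γ(1+t)) dt/t` -/
noncomputable def kappa : ℝ := Pool.Agent.W189.LC.kap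

/-- the number of zeros minus the number of poles on the half-line `s > 0`, with multiplicities -/
noncomputable def count (L : ℂ → ℂ) : ℤ :=
  ∑ᶠ σ ∈ Set.Ioi (0 : ℝ), (meromorphicOrderAt L (σ : ℂ)).untop₀

theorem term_eq {K : Type} [Field K] [NumberField K] {n : ℕ} (Sf : Finset (HeightOneSpectrum (𝓞 K)))
    (α : HeightOneSpectrum (𝓞 K) → Fin n → ℂ) (T : ℝ)
    (z : {v : HeightOneSpectrum (𝓞 K) // v ∉ Sf} × ℕ) :
    term Sf α T z = pterm (fun v : {v : HeightOneSpectrum (𝓞 K) // v ∉ Sf} => nrm v.1)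
      (fun v => α v.1) 0 T z := by
  unfold term pterm N nrm
  simp

theorem result (K : Type) [Field K] [NumberField K] {n : ℕ} (Sf : Finset (HeightOneSpectrum (𝓞 K)))
    (α : HeightOneSpectrum (𝓞 K) → Fin n → ℂ)
    (hα : ∀ v ∉ Sf, ∀ j, ‖α v j‖ ≤ 1) (hreal : ∀ v ∉ Sf, ∀ k : ℕ, (∑ j, α v j ^ k).im = 0)
    (L : ℂ → ℂ) (hmer : ∀ σ : ℝ, 0 ≤ σ → σ ≤ 1 → MeromorphicAt L (σ : ℂ))
    (hL : ∀ s : ℂ, 1 < s.re → HasProd (fun v : {v : HeightOneSpectrum (𝓞 K) // v ∉ Sf} =>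
      ∏ j, (1 - α v.1 j * (N v.1 : ℂ) ^ (-s))⁻¹) (L s)) :
    (∀ T : ℝ, 0 < T → Summable fun z => |term Sf α T z|) ∧
    (∃ (r : ℤ) (l : ℝ), meromorphicOrderAt L 0 = r ∧ meromorphicTrailingCoeffAt L 0 = l ∧
      l = (-1) ^ (count L) * |l| ∧ l ≠ 0) ∧
    List.TFAE [∀ σ : ℝ, 0 < σ → meromorphicOrderAt L (σ : ℂ) = 0,
      (fun T : ℝ => U Sf α T) =O[atTop] (fun T : ℝ => Real.log T),
      ∀ y : ℝ, 0 < y → ∃ᶠ T : ℝ in atTop, |U Sf α T| < Real.exp (Real.exp (y * T))] ∧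
    ((∀ σ : ℝ, 0 < σ → meromorphicOrderAt L (σ : ℂ) = 0) →
      ∃ (r : ℤ) (l : ℝ), meromorphicOrderAt L 0 = r ∧ meromorphicTrailingCoeffAt L 0 = l ∧ 0 < l ∧
        (fun T : ℝ => U Sf α T - (Real.log l - r * (Real.log T - kappa))) =O[atTop]
          fun T : ℝ => 1 / T) ∧
    ((∃ σ : ℝ, 0 < σ ∧ meromorphicOrderAt L (σ : ℂ) ≠ 0) →
      ∃ (β : ℝ) (m : ℤ), 0 < β ∧ β ≤ 1 ∧ m ≠ 0 ∧ meromorphicOrderAt L (β : ℂ) = m ∧
        (∀ σ : ℝ, β < σ → meromorphicOrderAt L (σ : ℂ) = 0) ∧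
        ∀ y < β, ∀ᶠ T : ℝ in atTop, Real.exp (Real.exp (y * T)) ≤ |U Sf α T|) := by
  have hE : Eul n (fun v : {v : HeightOneSpectrum (𝓞 K) // v ∉ Sf} => nrm v.1)
      (fun v => α v.1) 0 1 := eul_nf Sf (α := α) (by simpa using hα)
  have hR : RealSums (fun v : {v : HeightOneSpectrum (𝓞 K) // v ∉ Sf} => α v.1) :=
    fun v k => hreal v.1 v.2 k
  have hU : ∀ T, psmooth (fun v : {v : HeightOneSpectrum (𝓞 K) // v ∉ Sf} => nrm v.1)
      (fun v => α v.1) 0 T = U Sf α T := by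
    intro T
    unfold psmooth U
    simp only [term_eq]
  have hmer' : ∀ x : ℝ, 0 ≤ x → x ≤ 0 + 1 → MeromorphicAt L (x : ℂ) :=
    fun x hx hx1 => hmer x hx (by linarith)
  have hL' : ∀ s : ℂ, (0 : ℝ) + 1 < s.re →
      HasProd (fun v : {v : HeightOneSpectrum (𝓞 K) // v ∉ Sf} =>
        ∏ j, (1 - α v.1 j * (nrm v.1 : ℂ) ^ (-s))⁻¹) (L s) := fun s hs => hL s (by linarith)
  obtain ⟨h1, h2, h3⟩ := hE.dichotomy hR (F := L) (s₀ := 0) (by norm_num) hmer' hL'
  simp only [hU, Complex.ofReal_zero] at h1 h2 h3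
  obtain ⟨m, ρ, g1, g2, g3, g4⟩ := hE.law hR (F := L) (s₀ := 0) (by norm_num) hmer' hL'
    (γ := Real.pi) (by linarith [Real.pi_pos])
  rw [Complex.ofReal_zero] at g1 g2
  refine ⟨fun T hT => ?_, ?_, h1, h2, ?_⟩
  · simp only [term_eq]
    exact hE.pterm_summable 0 hT
  · have hexp : Complex.exp ρ = (((-1) ^ (count L) * Real.exp ρ.re : ℝ) : ℂ) := by
      have e1 : ρ = (ρ.re : ℂ) + (count L : ℂ) * (-(Real.pi * Complex.I)) := by
        apply Complex.ext
        · simp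
        · rw [g3]
          simp [count, excess]
          ring
      have e2 : Complex.exp (-(Real.pi * Complex.I)) = -1 := by
        rw [Complex.exp_neg, Complex.exp_pi_mul_I]
        norm_num
      conv_lhs => rw [e1]
      rw [Complex.exp_add, Complex.exp_int_mul, e2]
      push_cast
      ring
    refine ⟨m, (-1) ^ (count L) * Real.exp ρ.re, g1, by rw [← g2, hexp], ?_, ?_⟩
    · rw [abs_mul, abs_zpow, abs_neg, abs_one, one_zpow, one_mul, Real.abs_exp]
    · exact mul_ne_zero (zpow_ne_zero _ (by norm_num)) (Real.exp_ne_zero _)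
  · intro h
    obtain ⟨β, m, k1, k2, k3, k4, k5, -, k7⟩ := h3 h
    refine ⟨β, m, k1, by linarith, k3, k4, k5, fun y hy => k7 y (by linarith)⟩

end Pool.Agent.Results.MP_46b841_nt.RealCharacterDichotomy
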