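import Pool.Agent.Q317.ST.Sys
import Pool.Agent.Q317.ST.Emb

/-!
# Stark's conjecture for two base fields implies Stark's conjecture

`Ω` is an algebraic closure of `ℚ`, and number fields are the finite extensions of `ℚ` in `Ω`.
-/

set_option autoImplicit false

namespace Pool.Agent.Results.MP_46b841_nt.TwoBaseFields

open IntermediateField Pool.Agent.Q317.ST

attribute [-instance] DivisionRing.toRatAlgebra

theorem result (Ω : Type) [Field Ω] [Algebra ℚ Ω] [IsAlgClosure ℚ Ω] (N : StarkNumbers Ω) :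
    (∀ (K : IntermediateField ℚ Ω) (ℓ : ℕ) (ζ α : Ω), ℓ.Prime → IsPrimitiveRoot ζ ℓ → α ^ ℓ ∈ K →
      (∀ b ∈ K, b ^ ℓ ≠ α ^ ℓ) →
      (N.StarkFor K ↔ N.StarkFor (K ⊔ ℚ⟮ζ⟯) ∧ N.StarkFor (K ⊔ ℚ⟮α⟯))) ∧
    (∀ (ℓ : ℕ) (ζ α : Ω) (a : ℚ), ℓ.Prime → IsPrimitiveRoot ζ ℓ → α ^ ℓ = algebraMap ℚ Ω a →
      (∀ b : ℚ, b ^ ℓ ≠ a) → N.StarkFor ℚ⟮ζ⟯ → N.StarkFor ℚ⟮α⟯ →
      ∀ K : IntermediateField ℚ Ω, N.StarkFor K) ∧
    (∀ n : ℕ, (∀ K : IntermediateField ℚ Ω, FiniteDimensional ℚ K → n ≤ Module.finrank ℚ K →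
        Subsingleton (K →+* ℝ) →
        (∀ (p : ℕ) [Fact p.Prime], p ≤ n → Subsingleton (K →+* ℚ_[p])) → N.StarkFor K) →
      ∀ K : IntermediateField ℚ Ω, N.StarkFor K) := by
  have part2 : ∀ (ℓ : ℕ) (ζ α : Ω) (a : ℚ), ℓ.Prime → IsPrimitiveRoot ζ ℓ →
      α ^ ℓ = algebraMap ℚ Ω a → (∀ b : ℚ, b ^ ℓ ≠ a) → N.StarkFor ℚ⟮ζ⟯ → N.StarkFor ℚ⟮α⟯ →
      ∀ K : IntermediateField ℚ Ω, N.StarkFor K := by
    intro ℓ ζ α a hℓ hζ hα ha h1 h2 K
    have : Fact ℓ.Prime := ⟨hℓ⟩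
    refine StarkNumbers.StarkFor.ascent (K := ⊥) bot_le ?_
    refine StarkNumbers.StarkFor.descent hζ ?_ ?_ (α := α) ?_ ?_
    · rw [hα]
      exact (⊥ : IntermediateField ℚ Ω).algebraMap_mem a
    · intro b hb h
      rw [IntermediateField.mem_bot] at hb
      obtain ⟨q, rfl⟩ := hb
      rw [hα, ← map_pow] at h
      exact ha q ((algebraMap ℚ Ω).injective h)
    · rw [bot_sup_eq]
      exact h2
    · rw [bot_sup_eq]
      exact h1
  refine ⟨?_, part2, ?_⟩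
  · intro K ℓ ζ α hℓ hζ hα hn
    have : Fact ℓ.Prime := ⟨hℓ⟩
    constructor
    · intro h
      exact ⟨h.ascent le_sup_left, h.ascent le_sup_left⟩
    · rintro ⟨h1, h2⟩
      exact StarkNumbers.StarkFor.descent hζ hα hn h2 h1
  · intro n h
    obtain ⟨ℓ, hle, hℓ⟩ := Nat.exists_infinite_primes (n + 3)
    have : Fact ℓ.Prime := ⟨hℓ⟩
    have hodd : Odd ℓ := hℓ.odd_of_ne_two (by omega)
    have hcl : IsAlgClosed Ω := (inferInstance : IsAlgClosure ℚ Ω).isAlgClosed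
    have hch : CharZero Ω := charZero_of_injective_algebraMap (algebraMap ℚ Ω).injective
    have : NeZero ℓ := ⟨hℓ.ne_zero⟩
    obtain ⟨ζ, hζ⟩ := HasEnoughRootsOfUnity.exists_primitiveRoot Ω ℓ
    obtain ⟨α, hα⟩ := IsAlgClosed.exists_pow_nat_eq (algebraMap ℚ Ω 2) hℓ.pos
    have ha : ∀ b : ℚ, b ^ ℓ ≠ 2 := by
      intro b hb
      have h1 : padicValRat 2 (b ^ ℓ) = 1 := by
        rw [hb]
        have := padicValRat.self (p := 2) (by norm_num)
        exact_mod_cast this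
      rw [padicValRat.pow] at h1
      have h2 : (ℓ : ℤ) ∣ 1 := ⟨_, h1.symm⟩
      have h3 : ℓ ∣ 1 := by exact_mod_cast h2
      exact hℓ.one_lt.ne' (Nat.dvd_one.1 h3)
    have hζ1 : ζ ^ ℓ = algebraMap ℚ Ω 1 := by rw [map_one]; exact hζ.pow_eq_one
    have hAlg := (inferInstance : IsAlgClosure ℚ Ω).isAlgebraic
    refine part2 ℓ ζ α 2 hℓ hζ hα ha ?_ ?_
    · refine h _ (adjoin.finiteDimensional (hAlg.isAlgebraic ζ).isIntegral) ?_ ?_ ?_
      · rw [finrank_cyc hℓ hζ]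
        omega
      · exact subsingleton_hom (onlyOne_real hodd) one_ne_zero hζ1
      · intro p hp hpn
        exact subsingleton_hom (onlyOne_padic hℓ (by omega)) one_ne_zero hζ1
    · refine h _ (adjoin.finiteDimensional (hAlg.isAlgebraic α).isIntegral) ?_ ?_ ?_
      · rw [finrank_pure hℓ hα ha]
        omega
      · exact subsingleton_hom (onlyOne_real hodd) two_ne_zero hα
      · intro p hp hpn
        exact subsingleton_hom (onlyOne_padic hℓ (by omega)) two_ne_zero hα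

end Pool.Agent.Results.MP_46b841_nt.TwoBaseFields
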